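import Pool.Agent.Helper2.PG.Det
import Pool.Agent.Helper79.GR.RA
import Pool.Agent.Helper79.GR.DD

/-!
# PG+ (MP_13b103), law half: the cluster of an edge is measurable and covariant
-/

set_option autoImplicit false

namespace Pool.Agent.Helper42.LW

open Pool.Agent.Helper79.GR Pool.Agent.Helper2.PG MeasureTheory

variable {d : ℕ}

/-- the number of elements of a random subset of a countable type is measurable -/
theorem measurable_ncard {α β : Type*} [MeasurableSpace α] [Countable β] (S : α → Set β)
    (h : ∀ b, MeasurableSet {a | b ∈ S a}) : Measurable fun a => (S a).ncard := by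
  have hF : ∀ F : Finset β, MeasurableSet {a | S a = (F : Set β)} := by
    intro F
    have e : {a | S a = (F : Set β)} =
        ⋂ b : β, {a | b ∈ S a ↔ b ∈ F} := by
      ext a
      simp only [Set.mem_ofPred_eq, Set.mem_iInter, Set.ext_iff, Finset.mem_coe]
    rw [e]
    refine MeasurableSet.iInter fun b => ?_
    by_cases hb : b ∈ F
    · simpa [hb] using h b
    · have e2 : {a | b ∈ S a ↔ b ∈ F} = {a | b ∈ S a}ᶜ := by
        ext a
        simp [hb]
      rw [e2]
      exact (h b).compl
  have hn : ∀ n : ℕ, 0 < n → MeasurableSet {a | (S a).ncard = n} := by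
    intro n hn
    have e : {a | (S a).ncard = n} = ⋃ F : {F : Finset β // F.card = n},
        {a | S a = (F.1 : Set β)} := by
      ext a
      simp only [Set.mem_ofPred_eq, Set.mem_iUnion]
      constructor
      · intro ha
        have hfin : (S a).Finite := Set.finite_of_ncard_pos (by omega)
        refine ⟨⟨hfin.toFinset, ?_⟩, ?_⟩
        · rw [← ha, ← Set.ncard_eq_toFinset_card _ hfin]
        · simp
      · rintro ⟨F, hF⟩
        rw [hF, Set.ncard_coe_finset]
        exact F.2
    rw [e]
    have : Countable (Finset β) := Finset.countable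
    exact MeasurableSet.iUnion fun F => hF F.1
  refine measurable_to_countable' fun n => ?_
  rcases Nat.eq_zero_or_pos n with hn0 | hn0
  · subst hn0
    have e : (fun a => (S a).ncard) ⁻¹' {0} = (⋃ n : ℕ, {a | (S a).ncard = n + 1})ᶜ := by
      ext a
      simp only [Set.mem_preimage, Set.mem_singleton_iff, Set.mem_compl_iff, Set.mem_iUnion,
        Set.mem_ofPred_eq, not_exists]
      constructor
      · intro h1 n h2
        omega
      · intro h1
        by_contra h2
        exact h1 ((S a).ncard - 1) (by omega)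
    rw [e]
    exact (MeasurableSet.iUnion fun n => hn (n + 1) (Nat.succ_pos n)).compl
  · exact hn n hn0

/-- the edges reached by at most `n` *-steps -/
def reach (cl : Edge d → Prop) (e : Edge d) : ℕ → Edge d → Prop
  | 0, f => f = e
  | n + 1, f => reach cl e n f ∨ ∃ g, reach cl e n g ∧ cl f ∧ Adj2 g f

theorem rel_iff (cl : Edge d → Prop) (e f : Edge d) : Rel cl e f ↔ ∃ n, reach cl e n f := by
  constructor
  · intro h
    induction h with
    | refl => exact ⟨0, rfl⟩
    | tail _ hbc ih =>
      rename_i b c _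
      obtain ⟨n, hn⟩ := ih
      exact ⟨n + 1, Or.inr ⟨b, hn, hbc.1, hbc.2⟩⟩
  · rintro ⟨n, hn⟩
    induction n generalizing f with
    | zero =>
      have h1 : f = e := hn
      rw [h1]
      exact Relation.ReflTransGen.refl
    | succ n ih =>
      rcases hn with h1 | ⟨g, h1, h2, h3⟩
      · exact ih f h1
      · exact (ih g h1).tail ⟨h2, h3⟩

instance : Countable (Edge d) := Subtype.countable

theorem measurable_reach {α : Type*} [MeasurableSpace α] {cl : α → Edge d → Prop}
    (hcl : ∀ f, MeasurableSet {a | cl a f}) (e : Edge d) (n : ℕ) (f : Edge d) :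
    MeasurableSet {a | reach (cl a) e n f} := by
  induction n generalizing f with
  | zero => exact MeasurableSet.const _
  | succ n ih =>
    have e1 : {a | reach (cl a) e (n + 1) f} = {a | reach (cl a) e n f} ∪
        ⋃ g : Edge d, ({a | reach (cl a) e n g} ∩ ({a | cl a f} ∩ {_a | Adj2 g f})) := by
      ext a
      simp only [Set.mem_ofPred_eq, Set.mem_union, Set.mem_iUnion, Set.mem_inter_iff]
      exact Iff.rfl
    rw [e1]
    exact (ih f).union (MeasurableSet.iUnion fun g =>
      (ih g).inter ((hcl f).inter (MeasurableSet.const _)))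

theorem measurable_mem_clu {α : Type*} [MeasurableSpace α] {cl : α → Edge d → Prop}
    (hcl : ∀ f, MeasurableSet {a | cl a f}) (e f : Edge d) :
    MeasurableSet {a | f ∈ Clu (cl a) e} := by
  have e1 : {a | f ∈ Clu (cl a) e} = {a | cl a e} ∩ ⋃ n : ℕ, {a | reach (cl a) e n f} := by
    ext a
    simp only [Set.mem_ofPred_eq, Clu, Set.mem_inter_iff, Set.mem_iUnion, rel_iff]
  rw [e1]
  exact (hcl e).inter (MeasurableSet.iUnion fun n => measurable_reach hcl e n f)

/-- the size of the cluster is measurable -/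
theorem measurable_ncard_clu {α : Type*} [MeasurableSpace α] {cl : α → Edge d → Prop}
    (hcl : ∀ f, MeasurableSet {a | cl a f}) (e : Edge d) :
    Measurable fun a => (Clu (cl a) e).ncard :=
  measurable_ncard _ fun f => measurable_mem_clu hcl e f

/-! ## covariance -/

theorem sh_sh (v w : V d) (e : Edge d) : sh v (sh w e) = sh (w + v) e := by
  obtain ⟨e, x, y, he, hxy⟩ := e
  apply Subtype.ext
  subst he
  simp [sh, add_assoc]

theorem sh_zero (e : Edge d) : sh 0 e = e := by
  obtain ⟨e, x, y, he, hxy⟩ := e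
  apply Subtype.ext
  subst he
  simp [sh]

theorem sh_neg_sh (v : V d) (e : Edge d) : sh (-v) (sh v e) = e := by
  rw [sh_sh, add_neg_cancel, sh_zero]

theorem sh_sh_neg (v : V d) (e : Edge d) : sh v (sh (-v) e) = e := by
  rw [sh_sh, neg_add_cancel, sh_zero]

theorem inSq_sh {x : V d} {i j : Fin d} {e : Edge d} (v : V d) (h : InSq x i j e) :
    InSq (x + v) i j (sh v e) := by
  rcases h with h | h | h | h
  · left
    rw [h, sh_ed]
  · right
    left
    rw [h, sh_ed, add_right_comm]
  · right
    right
    left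
    rw [h, sh_ed]
  · right
    right
    right
    rw [h, sh_ed, add_right_comm]

theorem adj2_sh {e f : Edge d} (v : V d) (h : Adj2 e f) : Adj2 (sh v e) (sh v f) := by
  obtain ⟨x, i, j, hij, h1, h2⟩ := h
  exact ⟨x + v, i, j, hij, inSq_sh v h1, inSq_sh v h2⟩

theorem adj2_sh_iff {e f : Edge d} (v : V d) : Adj2 (sh v e) (sh v f) ↔ Adj2 e f := by
  refine ⟨fun h => ?_, adj2_sh v⟩
  have h1 := adj2_sh (-v) h
  rwa [sh_neg_sh, sh_neg_sh] at h1

theorem reach_sh (cl : Edge d → Prop) (v : V d) (e : Edge d) (n : ℕ) (f : Edge d) :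
    reach (fun g => cl (sh v g)) e n f ↔ reach cl (sh v e) n (sh v f) := by
  induction n generalizing f with
  | zero =>
    show f = e ↔ sh v f = sh v e
    exact (sh_injective v).eq_iff.symm
  | succ n ih =>
    show (reach (fun g => cl (sh v g)) e n f ∨ ∃ g, reach (fun g => cl (sh v g)) e n g ∧
      cl (sh v f) ∧ Adj2 g f) ↔ (reach cl (sh v e) n (sh v f) ∨ ∃ g, reach cl (sh v e) n g ∧
      cl (sh v f) ∧ Adj2 g (sh v f))
    refine or_congr (ih f) ⟨?_, ?_⟩
    · rintro ⟨g, h1, h2, h3⟩
      exact ⟨sh v g, (ih g).1 h1, h2, adj2_sh v h3⟩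
    · rintro ⟨g, h1, h2, h3⟩
      refine ⟨sh (-v) g, (ih _).2 ?_, h2, ?_⟩
      · rwa [sh_sh_neg]
      · rw [← adj2_sh_iff v, sh_sh_neg]
        exact h3

theorem mem_clu_sh (cl : Edge d → Prop) (v : V d) (e f : Edge d) :
    f ∈ Clu (fun g => cl (sh v g)) e ↔ sh v f ∈ Clu cl (sh v e) := by
  show (cl (sh v e) ∧ Rel (fun g => cl (sh v g)) e f) ↔ (cl (sh v e) ∧ Rel cl (sh v e) (sh v f))
  rw [rel_iff, rel_iff]
  exact and_congr_right fun _ => exists_congr fun n => reach_sh cl v e n f

/-- the size of the cluster is covariant -/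
theorem ncard_clu_sh (cl : Edge d → Prop) (v : V d) (e : Edge d) :
    (Clu (fun g => cl (sh v g)) e).ncard = (Clu cl (sh v e)).ncard := by
  have h1 : sh v '' (Clu (fun g => cl (sh v g)) e) = Clu cl (sh v e) := by
    ext f
    constructor
    · rintro ⟨g, hg, rfl⟩
      exact (mem_clu_sh cl v e g).1 hg
    · intro hf
      refine ⟨sh (-v) f, (mem_clu_sh cl v e _).2 ?_, sh_sh_neg v f⟩
      rwa [sh_sh_neg]
  rw [← h1]
  exact (Set.ncard_image_of_injective _ (sh_injective v)).symm

end Pool.Agent.Helper42.LW
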