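import Pool.Agent.Helper95.LW.Cap
import Pool.Agent.Helper67.PG.L1

/-!
# PG+ (b), law half: passage times of nonnegative weights; moments of the size of a cluster
-/

set_option autoImplicit false

namespace Pool.Agent.Helper42.LW

open Pool.Agent.Helper79.GR Pool.Agent.Helper2.PG Pool.Agent.Helper95.LW
open MeasureTheory ProbabilityTheory Filter Topology

variable {d : ℕ}

/-! ## passage times of nonnegative weights -/

section det

variable {c : Edge d → ℝ}

theorem cost_nn (hc : ∀ e, 0 ≤ c e) (x : V d) (w : List (St d)) : 0 ≤ cost c x w := by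
  induction w generalizing x with
  | nil => exact le_rfl
  | cons s w ih => exact add_nonneg (hc _) (ih _)

theorem T_le0 (hc : ∀ e, 0 ≤ c e) {x y : V d} {w : List (St d)} (hw : pos x w = y) :
    T c x y ≤ cost c x w := by
  refine ciInf_le ⟨0, ?_⟩ (⟨w, hw⟩ : {w : List (St d) // pos x w = y})
  rintro _ ⟨w, rfl⟩
  exact cost_nn hc x w.1

instance neW (x y : V d) : Nonempty {w : List (St d) // pos x w = y} := by
  obtain ⟨w, hw, _⟩ := exists_walk x y
  exact ⟨⟨w, hw⟩⟩

theorem le_T0 {x y : V d} {t : ℝ} (h : ∀ w, pos x w = y → t ≤ cost c x w) : t ≤ T c x y :=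
  le_ciInf fun w => h w.1 w.2

theorem T_nn (hc : ∀ e, 0 ≤ c e) (x y : V d) : 0 ≤ T c x y := le_T0 fun w _ => cost_nn hc x w

theorem T_tri0 (hc : ∀ e, 0 ≤ c e) (x y z : V d) : T c x z ≤ T c x y + T c y z := by
  have h1 : T c x z - T c y z ≤ T c x y := by
    refine le_T0 fun w hw => ?_
    have h2 : T c x z - cost c x w ≤ T c y z := by
      refine le_T0 fun w' hw' => ?_
      have h3 : pos x (w ++ w') = z := by rw [Pool.Agent.Helper79.GR.pos_append, hw, hw']
      have h4 := T_le0 hc h3
      rw [cost_append, hw] at h4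
      linarith
    linarith
  linarith

/-- the infimum over edge-simple walks -/
theorem le_T_nodup (hc : ∀ e, 0 ≤ c e) {x y : V d} {t : ℝ}
    (h : ∀ w, pos x w = y → (eds x w).Nodup → t ≤ cost c x w) : t ≤ T c x y := by
  refine le_T0 fun w hw => ?_
  obtain ⟨w', h1, h2, h3⟩ := exists_nodup x w
  refine (h w' (h1.trans hw) h3).trans ?_
  classical
  rw [cost_eq_sum, cost_eq_sum]
  have e1 : ((eds x w').map c).sum = ∑ e ∈ (eds x w').toFinset, c e := by
    rw [← List.sum_toFinset _ h3]
  rw [e1]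
  calc ∑ e ∈ (eds x w').toFinset, c e ≤ ∑ e ∈ (eds x w).toFinset, c e :=
        Finset.sum_le_sum_of_subset_of_nonneg (fun e he => by
          rw [List.mem_toFinset] at he ⊢
          exact h2 e he) fun e _ _ => hc e
    _ ≤ ((eds x w).map c).sum := by
        have h4 : ∀ l : List (Edge d), ∑ e ∈ l.toFinset, c e ≤ (l.map c).sum := by
          intro l
          induction l with
          | nil => simp
          | cons a l ih =>
            rw [List.toFinset_cons, List.map_cons, List.sum_cons]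
            by_cases ha : a ∈ l.toFinset
            · rw [Finset.insert_eq_of_mem ha]
              linarith [hc a]
            · rw [Finset.sum_insert ha]
              linarith
        exact h4 _

end det

/-! ## moments of an integer with geometric tails -/

section mom

variable {Ω : Type*} [MeasurableSpace Ω] {P : Measure Ω} [IsProbabilityMeasure P]

/-- `E f(N) ≤ Σ f(n) r ^ n` -/
theorem lint_le {N : Ω → ℕ} (hN : Measurable N) {r : ℝ}
    (h : ∀ n : ℕ, P.real {ω | n ≤ N ω} ≤ r ^ n) (f : ℕ → ENNReal) :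
    ∫⁻ ω, f (N ω) ∂P ≤ ∑' n : ℕ, f n * ENNReal.ofReal (r ^ n) := by
  have h1 : ∫⁻ ω, f (N ω) ∂P = ∑' n : ℕ, f n * P {ω | N ω = n} := by
    rw [← lintegral_map (f := f) (Measurable.of_discrete) hN, lintegral_countable']
    refine tsum_congr fun n => ?_
    rw [Measure.map_apply hN (measurableSet_singleton n)]
    rfl
  rw [h1]
  refine ENNReal.tsum_le_tsum fun n => mul_le_mul_right ?_ _
  have h2 : P {ω | N ω = n} ≤ P {ω | n ≤ N ω} := measure_mono fun ω hω => (show n ≤ N ω from
    (show N ω = n from hω).ge)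
  refine h2.trans ?_
  rw [← ENNReal.ofReal_toReal (measure_ne_top P {ω | n ≤ N ω})]
  exact ENNReal.ofReal_le_ofReal (h n)

/-- all polynomial moments, with a bound which depends only on `r` and `p` -/
theorem exists_mom {r : ℝ} (hr : 0 ≤ r) (hr1 : r < 1) (p : ℕ) : ∃ M : ℝ, 0 ≤ M ∧
    ∀ (Ω : Type*) [MeasurableSpace Ω] (P : Measure Ω) [IsProbabilityMeasure P] (N : Ω → ℕ),
      Measurable N → (∀ n : ℕ, P.real {ω | n ≤ N ω} ≤ r ^ n) →
      Integrable (fun ω => (N ω : ℝ) ^ p) P ∧ ∫ ω, (N ω : ℝ) ^ p ∂P ≤ M := by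
  have hs : Summable fun n : ℕ => (n : ℝ) ^ p * r ^ n :=
    summable_pow_mul_geometric_of_norm_lt_one p (by rwa [Real.norm_eq_abs, abs_of_nonneg hr])
  refine ⟨∑' n : ℕ, (n : ℝ) ^ p * r ^ n, tsum_nonneg fun n => by positivity, ?_⟩
  intro Ω _ P _ N hN h
  have h1 : ∫⁻ ω, ENNReal.ofReal ((N ω : ℝ) ^ p) ∂P ≤
      ENNReal.ofReal (∑' n : ℕ, (n : ℝ) ^ p * r ^ n) := by
    refine (lint_le hN h fun n => ENNReal.ofReal ((n : ℝ) ^ p)).trans (le_of_eq ?_)
    rw [ENNReal.ofReal_tsum_of_nonneg (fun n => by positivity) hs]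
    refine tsum_congr fun n => ?_
    rw [ENNReal.ofReal_mul (by positivity)]
  have hm : Measurable fun ω => (N ω : ℝ) ^ p :=
    (measurable_from_top.comp hN).pow_const p
  have h2 : Integrable (fun ω => (N ω : ℝ) ^ p) P := by
    refine ⟨hm.aestronglyMeasurable, ?_⟩
    rw [hasFiniteIntegral_iff_ofReal (Eventually.of_forall fun ω => by positivity)]
    exact h1.trans_lt ENNReal.ofReal_lt_top
  refine ⟨h2, ?_⟩
  rw [integral_eq_lintegral_of_nonneg_ae (Eventually.of_forall fun ω => by positivity)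
    hm.aestronglyMeasurable]
  refine ENNReal.toReal_le_of_le_ofReal (tsum_nonneg fun n => by positivity) h1

end mom

end Pool.Agent.Helper42.LW
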