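import Pool.Agent.Helper42.LW.Mom
import Pool.Agent.Helper50.PB.Reg
import Pool.Agent.Helper79.PB.Cv

/-!
# PG+ (b), law half: the passage times for the capped weights are a passage time process
-/

set_option autoImplicit false

namespace Pool.Agent.Helper42.LW

open Pool.Agent.Helper79.GR Pool.Agent.Helper2.PG Pool.Agent.Helper95.LW Pool.Agent.Helper67.LL
open MeasureTheory ProbabilityTheory Filter Topology

variable {d : ℕ} {κ : ℝ}

/-! ## the capped weights -/

theorem sc_nn (hκ : 0 ≤ κ) {c : Edge d → ℝ} (hc : ∀ e, 0 ≤ c e) (e : Edge d) : 0 ≤ sc κ c e := by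
  unfold sc
  split_ifs
  · exact le_min (hc e) (by positivity)
  · exact hc e

theorem sc_le_N (hκ : 0 ≤ κ) (c : Edge d → ℝ) (e : Edge d) :
    sc κ c e ≤ κ * (Dl d * (Clu (fun f => κ < c f) e).ncard + 1) := by
  by_cases h : κ < c e
  · rw [sc_closed h]
    exact min_le_right _ _
  · rw [sc_open h]
    push Not at h
    have h1 : (0 : ℝ) ≤ κ * (Dl d * (Clu (fun f => κ < c f) e).ncard) := by positivity
    nlinarith

theorem measurable_N (κ : ℝ) (e : Edge d) :
    Measurable fun c : Edge d → ℝ => (Clu (fun f => κ < c f) e).ncard :=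
  Pool.Agent.Helper2.PG.measurable_ncard (C := Set.Ioi κ) measurableSet_Ioi e

theorem measurable_sc_apply (κ : ℝ) (e : Edge d) :
    Measurable fun c : Edge d → ℝ => sc κ c e := by
  unfold sc
  refine Measurable.ite (measurableSet_lt measurable_const (measurable_pi_apply e)) ?_
    (measurable_pi_apply e)
  refine (measurable_pi_apply e).min ?_
  exact (((measurable_from_top.comp (measurable_N κ e)).const_mul (Dl d : ℝ)).add_const 1).const_mul
    κ

theorem measurable_sc (κ : ℝ) : Measurable (sc κ : (Edge d → ℝ) → Edge d → ℝ) :=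
  measurable_pi_lambda _ fun e => measurable_sc_apply κ e

/-- the capped weights are covariant -/
theorem sc_sh (κ : ℝ) (c : Edge d → ℝ) (v : V d) :
    sc κ (fun e => c (sh v e)) = fun e => sc κ c (sh v e) := by
  funext e
  unfold sc
  have h1 := ncard_Clu_sh (cl := fun f => κ < c f) v e
  simp only [h1]

theorem T_sc_sh (κ : ℝ) (c : Edge d → ℝ) (v x y : V d) :
    T (sc κ fun e => c (sh v e)) x y = T (sc κ c) (x + v) (y + v) := by
  rw [sc_sh]
  exact T_shift (sc κ c) v x y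

theorem measurable_T_sc (κ : ℝ) (x y : V d) :
    Measurable fun c : Edge d → ℝ => T (sc κ c) x y :=
  (measurable_T_cfg x y).comp (measurable_sc κ)

/-! ## moments -/

section prob

variable {Ω : Type*} [MeasurableSpace Ω] {P : Measure Ω} {X : Edge d → Ω → ℝ} {ν : Measure ℝ}

/-- independent identically distributed nonnegative weights, few of which are above `κ` -/
structure LE (P : Measure Ω) (X : Edge d → Ω → ℝ) (ν : Measure ℝ) (κ : ℝ) : Prop where
  iid : Iid P X ν
  nn : ∀ e ω, 0 ≤ X e ω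
  ze : ν (Set.Iic 0) = 0
  one : 1 ≤ κ
  few : (Dl d : ℝ) ^ 2 * ν.real (Set.Ioi κ) < 1

theorem rate_nn (d : ℕ) (ν : Measure ℝ) (κ : ℝ) : 0 ≤ (Dl d : ℝ) ^ 2 * ν.real (Set.Ioi κ) := by positivity

theorem LE.tail (h : LE P X ν κ) (e : Edge d) (n : ℕ) :
    P.real {ω | n ≤ (Clu (fun f => κ < cf X ω f) e).ncard} ≤
      ((Dl d : ℝ) ^ 2 * ν.real (Set.Ioi κ)) ^ n := by
  have := h.iid.prob
  have h1 : ∀ e, P.real (X e ⁻¹' Set.Ioi κ) ≤ ν.real (Set.Ioi κ) := by
    intro e
    rw [← h.iid.law e, map_measureReal_apply (h.iid.meas e) measurableSet_Ioi]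
  have h2 : ν.real (Set.Ioi κ) ≤ 1 := by
    rw [← h.iid.law e, map_measureReal_apply (h.iid.meas e) measurableSet_Ioi]
    exact measureReal_le_one
  exact peierls_ncard h.iid.indep measurableSet_Ioi h1 measureReal_nonneg h2 e n

theorem LE.measN (h : LE P X ν κ) (e : Edge d) :
    Measurable fun ω => (Clu (fun f => κ < cf X ω f) e).ncard :=
  (measurable_N κ e).comp h.iid.measurable_cf

/-- the clusters are finite -/
theorem LE.fin (h : LE P X ν κ) : ∀ᵐ ω ∂P, ∀ e : Edge d,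
    (Clu (fun f => κ < cf X ω f) e).Finite := by
  have := h.iid.prob
  have h1 : ∀ e, P.real (X e ⁻¹' Set.Ioi κ) ≤ ν.real (Set.Ioi κ) := by
    intro e
    rw [← h.iid.law e, map_measureReal_apply (h.iid.meas e) measurableSet_Ioi]
  exact ae_finite h.iid.indep measurableSet_Ioi h1 measureReal_nonneg h.few

/-- the second moments of the capped weights -/
theorem exists_M (d : ℕ) (κ : ℝ) {r : ℝ} (hr : 0 ≤ r) (hr1 : r < 1) : ∃ M : ℝ, 0 ≤ M ∧
    ∀ (Ω : Type*) [MeasurableSpace Ω] (P : Measure Ω) [IsProbabilityMeasure P] (N : Ω → ℕ),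
      Measurable N → (∀ n : ℕ, P.real {ω | n ≤ N ω} ≤ r ^ n) →
      Integrable (fun ω => (κ * (Dl d * N ω + 1)) ^ 2) P ∧
        ∫ ω, (κ * (Dl d * N ω + 1)) ^ 2 ∂P ≤ M := by
  obtain ⟨M₁, h1, hM₁⟩ := exists_mom hr hr1 1
  obtain ⟨M₂, h2, hM₂⟩ := exists_mom hr hr1 2
  refine ⟨κ ^ 2 * ((Dl d) ^ 2 * M₂ + 2 * Dl d * M₁ + 1), by positivity, ?_⟩
  intro Ω _ P _ N hN ht
  obtain ⟨i1, b1⟩ := hM₁ Ω P N hN ht
  obtain ⟨i2, b2⟩ := hM₂ Ω P N hN ht
  have e1 : (fun ω => (κ * (Dl d * N ω + 1)) ^ 2) = fun ω => κ ^ 2 * (((Dl d : ℝ) ^ 2 *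
      (N ω : ℝ) ^ 2 + 2 * Dl d * (N ω : ℝ) ^ 1) + 1) := by
    funext ω
    ring
  have i3 : Integrable (fun ω => ((Dl d : ℝ) ^ 2 * (N ω : ℝ) ^ 2 + 2 * Dl d * (N ω : ℝ) ^ 1)) P :=
    (i2.const_mul _).add (i1.const_mul _)
  constructor
  · rw [e1]
    exact (i3.add (integrable_const 1)).const_mul _
  · rw [e1, integral_const_mul, integral_add i3 (integrable_const 1),
      integral_add (i2.const_mul _) (i1.const_mul _), integral_const_mul, integral_const_mul]
    simp only [integral_const, probReal_univ, smul_eq_mul, one_mul]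
    refine mul_le_mul_of_nonneg_left ?_ (by positivity)
    have h3 : (Dl d : ℝ) ^ 2 * ∫ ω, (N ω : ℝ) ^ 2 ∂P ≤ (Dl d : ℝ) ^ 2 * M₂ :=
      mul_le_mul_of_nonneg_left b2 (by positivity)
    have h4 : 2 * (Dl d : ℝ) * ∫ ω, (N ω : ℝ) ^ 1 ∂P ≤ 2 * Dl d * M₁ :=
      mul_le_mul_of_nonneg_left b1 (by positivity)
    linarith

/-- the square of a sum over a list -/
theorem sq_sum_le (l : List (Edge d)) (f : Edge d → ℝ) :
    (l.map f).sum ^ 2 ≤ l.length * (l.map fun e => f e ^ 2).sum := by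
  have e1 : ∀ g : Edge d → ℝ, (l.map g).sum = ∑ i : Fin l.length, g l[i.1] := by
    intro g
    have h1 := Fin.sum_univ_getElem (l.map g)
    rw [← h1]
    have h2 : (l.map g).length = l.length := List.length_map _
    refine Fintype.sum_equiv (finCongr h2) _ _ fun i => ?_
    simp
  rw [e1, e1]
  have h3 := sq_sum_le_card_mul_sum_sq (s := (Finset.univ : Finset (Fin l.length)))
    (f := fun i => f l[i.1])
  rwa [Finset.card_univ, Fintype.card_fin] at h3

/-- a sum over a list of random variables -/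
theorem int_list (l : List (Edge d)) (f : Edge d → Ω → ℝ) (hf : ∀ e, Integrable (f e) P)
    {M : ℝ} (hM : ∀ e, ∫ ω, f e ω ∂P ≤ M) :
    Integrable (fun ω => (l.map fun e => f e ω).sum) P ∧
      ∫ ω, (l.map fun e => f e ω).sum ∂P ≤ M * l.length := by
  induction l with
  | nil => simp
  | cons a l ih =>
    simp only [List.map_cons, List.sum_cons, List.length_cons]
    refine ⟨(hf a).add ih.1, ?_⟩
    rw [integral_add (hf a) ih.1]
    push_cast
    linarith [hM a, ih.2]

/-- the bound of the weight of an edge -/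
theorem LE.exists_two (h : LE P X ν κ) : ∃ M : ℝ, 0 ≤ M ∧ ∀ x y : V d,
    Integrable (fun ω => T (sc κ (cf X ω)) x y ^ 2) P ∧
      ∫ ω, T (sc κ (cf X ω)) x y ^ 2 ∂P ≤ M * n1 (y - x) ^ 2 := by
  have hp := h.iid.prob
  have hκ0 : 0 ≤ κ := zero_le_one.trans h.one
  obtain ⟨M, hM0, hM⟩ := exists_M d κ (rate_nn d ν κ) h.few
  refine ⟨M, hM0, fun x y => ?_⟩
  obtain ⟨w, hw, hl⟩ := exists_walk x y
  set g : Edge d → Ω → ℝ := fun e ω =>
    (κ * (Dl d * ((Clu (fun f => κ < cf X ω f) e).ncard : ℕ) + 1)) ^ 2 with hg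
  have h1 : ∀ e, Integrable (g e) P := fun e => (hM Ω P _ (h.measN e) (h.tail e)).1
  have h2 : ∀ e, ∫ ω, g e ω ∂P ≤ M := fun e => (hM Ω P _ (h.measN e) (h.tail e)).2
  obtain ⟨h3, h4⟩ := int_list (eds x w) g h1 h2
  have hb : ∀ ω, T (sc κ (cf X ω)) x y ^ 2 ≤ (w.length : ℝ) * ((eds x w).map fun e => g e ω).sum := by
    intro ω
    have hnn := sc_nn hκ0 (c := cf X ω) fun e => h.nn e ω
    have h5 := T_le0 hnn hw
    have h6 := T_nn hnn x y
    have h7 : T (sc κ (cf X ω)) x y ^ 2 ≤ cost (sc κ (cf X ω)) x w ^ 2 :=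
      pow_le_pow_left₀ h6 h5 2
    refine h7.trans ?_
    rw [cost_eq_sum]
    refine (sq_sum_le _ _).trans ?_
    rw [length_eds]
    refine mul_le_mul_of_nonneg_left ?_ (Nat.cast_nonneg _)
    refine List.sum_le_sum fun e _ => ?_
    exact pow_le_pow_left₀ (hnn e) (sc_le_N hκ0 _ _) 2
  have hm : Measurable fun ω => T (sc κ (cf X ω)) x y ^ 2 :=
    ((measurable_T_sc κ x y).comp h.iid.measurable_cf).pow_const 2
  have h8 : Integrable (fun ω => (w.length : ℝ) * ((eds x w).map fun e => g e ω).sum) P :=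
    h3.const_mul _
  have h9 : Integrable (fun ω => T (sc κ (cf X ω)) x y ^ 2) P := by
    refine h8.mono' hm.aestronglyMeasurable (Eventually.of_forall fun ω => ?_)
    rw [Real.norm_eq_abs, abs_of_nonneg (sq_nonneg _)]
    exact hb ω
  refine ⟨h9, ?_⟩
  calc ∫ ω, T (sc κ (cf X ω)) x y ^ 2 ∂P
      ≤ ∫ ω, (w.length : ℝ) * ((eds x w).map fun e => g e ω).sum ∂P :=
        integral_mono h9 h8 hb
    _ = (w.length : ℝ) * ∫ ω, ((eds x w).map fun e => g e ω).sum ∂P := integral_const_mul _ _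
    _ ≤ (w.length : ℝ) * (M * (eds x w).length) :=
        mul_le_mul_of_nonneg_left h4 (Nat.cast_nonneg _)
    _ = M * n1 (y - x) ^ 2 := by
        rw [length_eds, hl]
        ring

/-- the first moment -/
theorem LE.exists_one (h : LE P X ν κ) : ∃ M : ℝ, 0 ≤ M ∧ ∀ x y : V d,
    Integrable (fun ω => T (sc κ (cf X ω)) x y) P ∧
      ∫ ω, T (sc κ (cf X ω)) x y ∂P ≤ M * n1 (y - x) := by
  have hp := h.iid.prob
  obtain ⟨M, hM0, hM⟩ := h.exists_two
  refine ⟨√M, Real.sqrt_nonneg _, fun x y => ?_⟩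
  obtain ⟨h1, h2⟩ := hM x y
  have hm : Measurable fun ω => T (sc κ (cf X ω)) x y :=
    (measurable_T_sc κ x y).comp h.iid.measurable_cf
  have hL : MemLp (fun ω => T (sc κ (cf X ω)) x y) 2 P :=
    (memLp_two_iff_integrable_sq hm.aestronglyMeasurable).2 h1
  have h3 : Integrable (fun ω => T (sc κ (cf X ω)) x y) P := hL.integrable (by norm_num)
  refine ⟨h3, ?_⟩
  have h4 : (∫ ω, T (sc κ (cf X ω)) x y ∂P) ^ 2 ≤ ∫ ω, T (sc κ (cf X ω)) x y ^ 2 ∂P := by
    have h5 := variance_eq_sub hL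
    have h6 := variance_nonneg (fun ω => T (sc κ (cf X ω)) x y) P
    have h7 : Var[fun ω => T (sc κ (cf X ω)) x y; P] =
        (∫ ω, T (sc κ (cf X ω)) x y ^ 2 ∂P) - (∫ ω, T (sc κ (cf X ω)) x y ∂P) ^ 2 := h5
    linarith
  have h8 : (∫ ω, T (sc κ (cf X ω)) x y ∂P) ^ 2 ≤ (√M * n1 (y - x)) ^ 2 := by
    rw [mul_pow, Real.sq_sqrt hM0]
    exact h4.trans h2
  exact le_of_sq_le_sq h8 (mul_nonneg (Real.sqrt_nonneg _) (n1_nonneg _))

/-- the capped passage times are a covariant integrable metric -/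
theorem LE.cov (h : LE P X ν κ) : Cov P X fun c x y => T (sc κ c) x y where
  int x := by
    have h1 : AEStronglyMeasurable (fun c : Edge d → ℝ => T (sc κ c) 0 x) (P.map (cf X)) :=
      (measurable_T_sc κ 0 x).aestronglyMeasurable
    rw [integrable_map_measure h1 h.iid.measurable_cf.aemeasurable]
    obtain ⟨M, _, hM⟩ := h.exists_one
    exact (hM 0 x).1
  cov v x y := Eventually.of_forall fun ω => T_sc_sh κ (cf X ω) v x y
  tri x y z := Eventually.of_forall fun ω =>
    T_tri0 (sc_nn (zero_le_one.trans h.one) fun e => h.nn e ω) x y z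
  nn x y := Eventually.of_forall fun ω =>
    T_nn (sc_nn (zero_le_one.trans h.one) fun e => h.nn e ω) x y

/-- the mean capped passage time -/
noncomputable def ms (P : Measure Ω) (X : Edge d → Ω → ℝ) (κ : ℝ) : V d → ℝ :=
  mS P X fun c x y => T (sc κ c) x y

theorem LE.nsmul_le (h : LE P X ν κ) (x : V d) (k : ℕ) : ms P X κ (k • x) ≤ k * ms P X κ x := by
  induction k with
  | zero =>
    have e : ms P X κ (0 • x) = 0 := by
      rw [zero_smul]
      unfold ms mS
      have h1 : ∀ ω, T (sc κ (cf X ω)) 0 (0 : V d) = 0 := fun ω => by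
        have hnn := sc_nn (zero_le_one.trans h.one) (c := cf X ω) fun e => h.nn e ω
        exact le_antisymm (T_le0 hnn (w := []) rfl) (T_nn hnn 0 0)
      simp only [h1, integral_zero]
    rw [e]
    simp
  | succ k ih =>
    have h1 := h.cov.mS_add h.iid (k • x) x
    rw [succ_nsmul]
    refine h1.trans ?_
    push_cast
    have h2 : mS P X (fun c x y => T (sc κ c) x y) (k • x) ≤ k * ms P X κ x := ih
    have h3 : mS P X (fun c x y => T (sc κ c) x y) x = ms P X κ x := rfl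
    rw [h3]
    linarith

/-- the mean is at least linear -/
theorem LE.exists_lo (h : LE P X ν κ) : ∃ a : ℝ, 0 < a ∧ ∀ x : V d, a * n1 x ≤ ms P X κ x := by
  have hp := h.iid.prob
  have hκ0 : 0 ≤ κ := zero_le_one.trans h.one
  rcases isEmpty_or_nonempty (Edge d) with hE | ⟨⟨e₀⟩⟩
  · refine ⟨1, one_pos, fun x => ?_⟩
    have h1 : n1 x = 0 := by
      obtain ⟨w, hw, hl⟩ := exists_walk 0 x
      cases w with
      | nil =>
        rw [sub_zero] at hl
        rw [← hl]
        simp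
      | cons s w => exact (hE.false (ed 0 s)).elim
    rw [h1, mul_zero]
    exact h.cov.mS_nonneg x
  have hνp : IsProbabilityMeasure ν := by
    rw [← h.iid.law e₀]
    exact Measure.isProbabilityMeasure_map (h.iid.meas e₀).aemeasurable
  obtain ⟨a₀, ha₀, -, hR⟩ := Pool.Agent.Helper50.PB.exists_reg (ν := ν) h.ze d
  refine ⟨a₀, ha₀, fun x => ?_⟩
  have key : ∀ y : V d, a₀ * n1 y * (1 - Real.exp (-n1 y)) ≤ ms P X κ y := by
    intro y
    obtain ⟨n, hn⟩ := exists_nat_n1 y
    have hmin : ∀ e ω, min (X e ω) 1 ≤ sc κ (cf X ω) e := by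
      intro e ω
      have h1 := min_le_sc (c := cf X ω) (zero_lt_one.trans_le h.one) e
      refine le_trans ?_ h1
      exact le_min (min_le_left _ _) ((min_le_right _ _).trans h.one)
    have hR1 := hR P X h.iid.meas h.iid.indep h.iid.law (fun e ω => sc κ (cf X ω) e)
      (fun e ω => sc_nn hκ0 (fun e => h.nn e ω) e)
      hmin 0 n
    set B : Set Ω := {ω | ∃ w : List (St d), n ≤ w.length ∧ (eds 0 w).Nodup ∧
        cost (cf (fun e ω => sc κ (cf X ω) e) ω) 0 w < a₀ * w.length} with hB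
    have hbd : ∀ ω, ω ∉ B → a₀ * n1 y ≤ T (sc κ (cf X ω)) 0 y := by
      intro ω hω
      refine le_T_nodup (sc_nn hκ0 fun e => h.nn e ω) fun w hw hnd => ?_
      have h1 : (n : ℝ) ≤ w.length := by
        have h2 := n1_pos_sub_le 0 w
        rwa [hw, sub_zero, hn] at h2
      have h3 : ¬ cost (sc κ (cf X ω)) 0 w < a₀ * w.length := fun h4 =>
        hω ⟨w, by exact_mod_cast h1, hnd, h4⟩
      push Not at h3
      refine le_trans ?_ h3
      rw [hn]
      exact mul_le_mul_of_nonneg_left h1 ha₀.le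
    set G : Set Ω := {ω | a₀ * n1 y ≤ T (sc κ (cf X ω)) 0 y} with hG
    have hGm : MeasurableSet G :=
      measurableSet_le measurable_const ((measurable_T_sc κ 0 y).comp h.iid.measurable_cf)
    have hGp : 1 - Real.exp (-n1 y) ≤ P.real G := by
      have h4 : P.real Gᶜ ≤ Real.exp (-n1 y) := by
        have h5 : P Gᶜ ≤ ENNReal.ofReal (Real.exp (-n)) := by
          refine le_trans (measure_mono fun ω hω => ?_) hR1
          by_contra h6
          exact hω (hbd ω h6)
        rw [hn]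
        exact ENNReal.toReal_le_of_le_ofReal (Real.exp_pos _).le h5
      rw [probReal_compl_eq_one_sub hGm] at h4
      linarith
    obtain ⟨M, _, hM⟩ := h.exists_one
    have hi := (hM 0 y).1
    have h7 : ∫ ω, G.indicator (fun _ => a₀ * n1 y) ω ∂P ≤ ∫ ω, T (sc κ (cf X ω)) 0 y ∂P := by
      refine integral_mono ((integrable_const _).indicator hGm) hi fun ω => ?_
      by_cases hω : ω ∈ G
      · rw [Set.indicator_of_mem hω]
        exact hω
      · rw [Set.indicator_of_notMem hω]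
        exact T_nn (sc_nn hκ0 fun e => h.nn e ω) _ _
    rw [integral_indicator_const _ hGm, smul_eq_mul] at h7
    have h8 : 0 ≤ a₀ * n1 y := mul_nonneg ha₀.le (n1_nonneg _)
    calc a₀ * n1 y * (1 - Real.exp (-n1 y)) ≤ a₀ * n1 y * P.real G :=
          mul_le_mul_of_nonneg_left hGp h8
      _ = P.real G * (a₀ * n1 y) := mul_comm _ _
      _ ≤ _ := h7
  rcases (n1_nonneg x).eq_or_lt with h0 | h0
  · rw [← h0, mul_zero]
    exact h.cov.mS_nonneg x
  have h1 : ∀ k : ℕ, 0 < k → a₀ * n1 x * (1 - Real.exp (-(k * n1 x))) ≤ ms P X κ x := by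
    intro k hk
    have hk0 : (0 : ℝ) < k := by exact_mod_cast hk
    have h2 := (key (k • x)).trans (h.nsmul_le x k)
    rw [n1_nsmul] at h2
    have h3 : k * (a₀ * n1 x * (1 - Real.exp (-(k * n1 x)))) ≤ k * ms P X κ x := by
      calc _ = a₀ * (k * n1 x) * (1 - Real.exp (-(k * n1 x))) := by ring
        _ ≤ _ := h2
    exact le_of_mul_le_mul_left h3 hk0
  have h2 : Tendsto (fun k : ℕ => a₀ * n1 x * (1 - Real.exp (-(k * n1 x)))) atTop
      (𝓝 (a₀ * n1 x * (1 - 0))) := by
    refine Tendsto.const_mul _ (Tendsto.const_sub _ ?_)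
    refine Real.tendsto_exp_neg_atTop_nhds_zero.comp ?_
    exact tendsto_natCast_atTop_atTop.atTop_mul_const h0
  rw [sub_zero, mul_one] at h2
  refine le_of_tendsto h2 ?_
  filter_upwards [eventually_gt_atTop 0] with k hk
  exact h1 k hk

/-- the mean capped passage time is subadditive and comparable to the norm -/
theorem LE.exists_sub (h : LE P X ν κ) : ∃ a b : ℝ, 0 < a ∧ 0 ≤ b ∧ SubM a b (ms P X κ) := by
  obtain ⟨a, ha, hlo⟩ := h.exists_lo
  obtain ⟨b, hb, hM⟩ := h.exists_one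
  refine ⟨a, b, ha, hb, ha, fun x y => h.cov.mS_add h.iid x y, hlo, fun x => ?_⟩
  have h1 := (hM 0 x).2
  rwa [sub_zero] at h1

open Pool.Agent.Helper79.PB in
/-- **the capped passage times are a passage time process** -/
theorem LE.exists_proc (h : LE P X ν κ) : ∃ a b : ℝ, 0 < a ∧ 0 ≤ b ∧
    Proc P (fun ω x y => T (sc κ (cf X ω)) x y) a b := by
  obtain ⟨a, b, ha, hb, hs⟩ := h.exists_sub
  refine ⟨a, b, ha, hb, ?_⟩
  exact proc_of_cov h.iid h.cov
    (fun ω x y => T_nn (sc_nn (zero_le_one.trans h.one) fun e => h.nn e ω) x y)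
    (fun ω x y => Pool.Agent.Helper79.GQ.T_symm _ x y)
    (fun ω x y z => T_tri0 (sc_nn (zero_le_one.trans h.one) fun e => h.nn e ω) x y z) hs

end prob

end Pool.Agent.Helper42.LW
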