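import Pool.Agent.Helper42.LW.Proc
import Pool.Agent.Helper79.PB.Asm

/-!
# PG+ (b): the input `ProcIn` of the assembly
-/

set_option autoImplicit false

namespace Pool.Agent.Helper42.LW

open Pool.Agent.Helper79.GR Pool.Agent.Helper79.PB MeasureTheory ProbabilityTheory

theorem le_of_dat {Ω : Type} [MeasurableSpace Ω] {d : ℕ} {P : Measure Ω} {X : Edge d → Ω → ℝ}
    {ν : Measure ℝ} {κ : ℝ} (h : Dat P X ν κ) : LE P X ν κ where
  iid := ⟨h.prob, h.meas, h.indep, h.law⟩
  nn := h.nn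
  ze := by
    have e : Set.Iic (0 : ℝ) = Set.Iio 0 ∪ {0} := by
      ext x
      simp [le_iff_lt_or_eq]
    rw [e]
    refine le_antisymm ((measure_union_le _ _).trans ?_) zero_le
    rw [h.nonneg, h.atom, add_zero]
  one := h.k1
  few := h.kp

theorem procIn (d : ℕ) : ProcIn d := by
  intro Ω mΩ P X ν κ h
  obtain ⟨a, b, _, _, hp⟩ := (le_of_dat h).exists_proc
  exact ⟨a, b, hp⟩

end Pool.Agent.Helper42.LW
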